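import Pool.Agent.Lib.H60CD.Final

/-!
# The dimension of the intersection of the unit circle with `C × C`

`C` is the middle-third Cantor set.  The set of points of the unit circle of the Euclidean plane
with both coordinates in `C` has Hausdorff dimension `2 log 2 / log 3 - 1`.
-/

namespace Pool.Agent.Results.MP_54f706_an.CircleCantorDimension

theorem result :
    dimH {p : EuclideanSpace ℝ (Fin 2) | p 0 ^ 2 + p 1 ^ 2 = 1 ∧ p 0 ∈ cantorSet ∧
      p 1 ∈ cantorSet} = ENNReal.ofReal (2 * Real.log 2 / Real.log 3 - 1) :=
  H60CD.dimH_euclidean.trans H60CD.dimH_E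

end Pool.Agent.Results.MP_54f706_an.CircleCantorDimension
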