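import Mathlib.Topology.Instances.CantorSet
import Mathlib.Tactic.Linarith
import Mathlib.Tactic.Positivity
import Mathlib.Tactic.NormNum
import Mathlib.Tactic.Ring
import Mathlib.Tactic.FieldSimp
import Mathlib.Topology.Order.Compact
import Mathlib.Tactic.LinearCombination
import Mathlib.Analysis.SpecificLimits.Basic

/-!
# The unit circle meets the product of two middle-third Cantor sets in infinitely many points

Near the point `(0, 1)` write `x = 3⁻ⁿ X` and `y = 1 - 9⁻ⁿ Z`.  The circle becomes the curve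
`X ^ 2 = 2 Z - 9⁻ⁿ Z ^ 2`, whose slope lies between `1/3` and `1` for `2/3 ≤ X ≤ 7/9`.  A curve with
such slopes that meets a basic square of `C × C` always meets one of the four basic subsquares of
the next level, so it meets `C × C`.
-/

namespace Pool.Agent.Results.MP_54f706_an.CircleCantorInfinite

open Set

lemma third_mem {x : ℝ} (hx : x ∈ cantorSet) : x / 3 ∈ cantorSet := by
  rw [cantorSet_eq_union_halves]
  exact Or.inl ⟨x, hx, rfl⟩

lemma two_add_third_mem {x : ℝ} (hx : x ∈ cantorSet) : (2 + x) / 3 ∈ cantorSet := by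
  rw [cantorSet_eq_union_halves]
  exact Or.inr ⟨x, hx, rfl⟩

lemma div_pow_mem {x : ℝ} (hx : x ∈ cantorSet) (n : ℕ) : x / 3 ^ n ∈ cantorSet := by
  induction n with
  | zero => simpa using hx
  | succ n ih =>
    have := third_mem ih
    rwa [div_div, ← pow_succ] at this

lemma one_sub_mem_preCantorSet (n : ℕ) : ∀ {x : ℝ}, x ∈ preCantorSet n → 1 - x ∈ preCantorSet n := by
  induction n with
  | zero =>
    intro x hx
    simp only [preCantorSet_zero, mem_Icc] at hx ⊢
    constructor <;> linarith [hx.1, hx.2]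
  | succ n ih =>
    intro x hx
    rw [preCantorSet_succ] at hx ⊢
    rcases hx with ⟨y, hy, rfl⟩ | ⟨y, hy, rfl⟩
    · exact Or.inr ⟨1 - y, ih hy, by ring⟩
    · exact Or.inl ⟨1 - y, ih hy, by ring⟩

lemma one_sub_mem {x : ℝ} (hx : x ∈ cantorSet) : 1 - x ∈ cantorSet := by
  simp only [cantorSet, mem_iInter] at hx ⊢
  exact fun n => one_sub_mem_preCantorSet n (hx n)

/-- `g ε X Z = 2 Z - ε Z ^ 2 - X ^ 2`, whose zero set is the rescaled circle. -/
noncomputable def g (ε X Z : ℝ) : ℝ := 2 * Z - ε * Z ^ 2 - X ^ 2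

/-- The Cantor interval condition: `a + s * C ⊆ C`. -/
def Base (a s : ℝ) : Prop := ∀ x ∈ cantorSet, a + s * x ∈ cantorSet

lemma Base.left {a s : ℝ} (h : Base a s) : Base a (s / 3) := by
  intro x hx
  have := h _ (third_mem hx)
  have e : a + s / 3 * x = a + s * (x / 3) := by ring
  rwa [e]

lemma Base.right {a s : ℝ} (h : Base a s) : Base (a + 2 * s / 3) (s / 3) := by
  intro x hx
  have := h _ (two_add_third_mem hx)
  have e : a + 2 * s / 3 + s / 3 * x = a + s * ((2 + x) / 3) := by ring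
  rwa [e]

/-- The curve `g ε = 0` meets the square with lower left corner `(a, b)` and side `s`. -/
structure Hit (ε a b s : ℝ) : Prop where
  hs : 0 < s
  ha : Base a s
  hb : Base b s
  a1 : 2 / 3 ≤ a
  a2 : a + s ≤ 7 / 9
  b1 : 2 / 9 ≤ b
  b2 : b + s ≤ 1 / 3
  h1 : 0 ≤ g ε a (b + s)
  h2 : g ε (a + s) b ≤ 0

lemma step {ε a b s : ℝ} (hε0 : 0 ≤ ε) (hε : ε ≤ 1 / 9) (h : Hit ε a b s) :
    ∃ a' b', Hit ε a' b' (s / 3) := by
  obtain ⟨hs, ha, hb, a1, a2, b1, b2, h1, h2⟩ := h
  -- moving diagonally up by `s / 3` from a point above the curve keeps it above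
  have diag : ∀ X Z t : ℝ, 0 < t → X + t ≤ 7 / 9 → 0 ≤ Z → Z + t ≤ 1 / 3 → 0 < X →
      g ε X Z ≤ g ε (X + t) (Z + t) := by
    intro X Z t ht hX hZ0 hZ hX0
    have e : g ε (X + t) (Z + t) - g ε X Z = t * (2 - 2 * X - t - ε * (2 * Z + t)) := by
      unfold g; ring
    have h3 : ε * (2 * Z + t) ≤ 1 / 9 * (2 / 3) :=
      mul_le_mul hε (by linarith) (by linarith) (by norm_num)
    have h4 : 0 ≤ t * (2 - 2 * X - t - ε * (2 * Z + t)) := by
      apply mul_nonneg ht.le
      linarith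
    linarith
  have back : ∀ X Z t : ℝ, 0 < t → 2 / 3 ≤ X → 0 ≤ Z →
      g ε (X + 3 * t) (Z + t) ≤ g ε X Z := by
    intro X Z t ht hX hZ
    have e : g ε X Z - g ε (X + 3 * t) (Z + t) =
        t * (6 * X + 9 * t - 2 + ε * (2 * Z + t)) := by
      unfold g; ring
    have h4 : 0 ≤ t * (6 * X + 9 * t - 2 + ε * (2 * Z + t)) := by
      apply mul_nonneg ht.le
      have : 0 ≤ ε * (2 * Z + t) := mul_nonneg hε0 (by linarith)
      linarith
    linarith
  have hs3 : 0 < s / 3 := by linarith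
  by_cases c1 : g ε (a + s / 3) (b + 2 * s / 3) ≤ 0
  · -- top left child
    refine ⟨a, b + 2 * s / 3, hs3, ha.left, hb.right, a1, by linarith, by linarith, by linarith,
      ?_, ?_⟩
    · have : b + 2 * s / 3 + s / 3 = b + s := by ring
      rw [this]; exact h1
    · exact c1
  push Not at c1
  have d1 : 0 ≤ g ε (a + 2 * s / 3) (b + s) := by
    have := diag (a + s / 3) (b + 2 * s / 3) (s / 3) hs3 (by linarith) (by linarith) (by linarith)
      (by linarith)
    have e1 : a + s / 3 + s / 3 = a + 2 * s / 3 := by ring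
    have e2 : b + 2 * s / 3 + s / 3 = b + s := by ring
    rw [e1, e2] at this
    linarith
  by_cases c2 : g ε (a + s) (b + 2 * s / 3) ≤ 0
  · -- top right child
    refine ⟨a + 2 * s / 3, b + 2 * s / 3, hs3, ha.right, hb.right, by linarith, by linarith,
      by linarith, by linarith, ?_, ?_⟩
    · have : b + 2 * s / 3 + s / 3 = b + s := by ring
      rw [this]; exact d1
    · have : a + 2 * s / 3 + s / 3 = a + s := by ring
      rw [this]; exact c2
  push Not at c2
  have d2 : 0 ≤ g ε a (b + s / 3) := by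
    have := back a (b + s / 3) (s / 3) hs3 a1 (by linarith)
    have e1 : a + 3 * (s / 3) = a + s := by ring
    have e2 : b + s / 3 + s / 3 = b + 2 * s / 3 := by ring
    rw [e1, e2] at this
    linarith
  by_cases c3 : g ε (a + s / 3) b ≤ 0
  · -- bottom left child
    refine ⟨a, b, hs3, ha.left, hb.left, a1, by linarith, b1, by linarith, d2, c3⟩
  push Not at c3
  have d3 : 0 ≤ g ε (a + 2 * s / 3) (b + s / 3) := by
    have := diag (a + s / 3) b (s / 3) hs3 (by linarith) (by linarith) (by linarith)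
      (by linarith)
    have e1 : a + s / 3 + s / 3 = a + 2 * s / 3 := by ring
    rw [e1] at this
    linarith
  · -- bottom right child
    refine ⟨a + 2 * s / 3, b, hs3, ha.right, hb.left, by linarith, by linarith, b1, by linarith,
      d3, ?_⟩
    have : a + 2 * s / 3 + s / 3 = a + s := by ring
    rw [this]; exact h2

lemma base_case {ε : ℝ} (hε0 : 0 ≤ ε) (hε : ε ≤ 1 / 9) : Hit ε (2 / 3) (2 / 9) (1 / 9) := by
  have h0 : Base 0 1 := by
    intro x hx
    simpa using hx
  refine ⟨by norm_num, ?_, ?_, by norm_num, by norm_num, by norm_num, by norm_num, ?_, ?_⟩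
  · have := h0.right.left
    norm_num at this ⊢
    exact this
  · have := h0.left.right
    norm_num at this ⊢
    exact this
  · unfold g
    norm_num
    linarith
  · unfold g
    norm_num
    linarith

lemma exists_hit {ε : ℝ} (hε0 : 0 ≤ ε) (hε : ε ≤ 1 / 9) (n : ℕ) :
    ∃ a b, Hit ε a b (1 / 9 / 3 ^ n) := by
  induction n with
  | zero => exact ⟨2 / 3, 2 / 9, by simpa using base_case hε0 hε⟩
  | succ n ih =>
    obtain ⟨a, b, h⟩ := ih
    obtain ⟨a', b', h'⟩ := step hε0 hε h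
    refine ⟨a', b', ?_⟩
    have : (1 : ℝ) / 9 / 3 ^ n / 3 = 1 / 9 / 3 ^ (n + 1) := by rw [pow_succ]; ring
    rwa [this] at h'

/-- The compact piece of `C × C` in which the point is found. -/
def K : Set (ℝ × ℝ) := (cantorSet ∩ Icc (2 / 3) (7 / 9)) ×ˢ (cantorSet ∩ Icc (2 / 9) (1 / 3))

lemma exists_zero {ε : ℝ} (hε0 : 0 ≤ ε) (hε : ε ≤ 1 / 9) :
    ∃ X ∈ cantorSet, ∃ Z ∈ cantorSet, 2 / 3 ≤ X ∧ X ≤ 7 / 9 ∧ g ε X Z = 0 := by
  have hK : IsCompact K :=
    (isCompact_cantorSet.inter_right isClosed_Icc).prod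
      (isCompact_cantorSet.inter_right isClosed_Icc)
  have approx : ∀ n : ℕ, ∃ p ∈ K, |g ε p.1 p.2| ≤ 1 / 3 / 3 ^ n := by
    intro n
    obtain ⟨a, b, hs, ha, hb, a1, a2, b1, b2, h1, h2⟩ := exists_hit hε0 hε n
    have haC : a ∈ cantorSet := by simpa using ha 0 zero_mem_cantorSet
    have hbC : b ∈ cantorSet := by simpa using hb 0 zero_mem_cantorSet
    refine ⟨(a, b), ⟨⟨haC, a1, by linarith⟩, ⟨hbC, b1, by linarith⟩⟩, ?_⟩
    set s : ℝ := 1 / 9 / 3 ^ n with hsdef
    have e : (1 : ℝ) / 3 / 3 ^ n = 3 * s := by rw [hsdef]; ring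
    rw [e, abs_le]
    have e1 : g ε a (b + s) = g ε a b + 2 * s - ε * (2 * b * s + s ^ 2) := by unfold g; ring
    have e2 : g ε (a + s) b = g ε a b - 2 * a * s - s ^ 2 := by unfold g; ring
    have p1 : 0 ≤ ε * (2 * b * s + s ^ 2) := by positivity
    have p2 : a * s ≤ 1 * s := mul_le_mul_of_nonneg_right (by linarith) hs.le
    have p3 : s * s ≤ 1 * s := mul_le_mul_of_nonneg_right (by linarith) hs.le
    constructor
    · rw [e1] at h1
      linarith
    · rw [e2] at h2
      nlinarith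
  have hne : K.Nonempty := by
    obtain ⟨p, hp, -⟩ := approx 0
    exact ⟨p, hp⟩
  have hcont : ContinuousOn (fun p : ℝ × ℝ => |g ε p.1 p.2|) K := by
    apply Continuous.continuousOn
    unfold g
    fun_prop
  obtain ⟨p, hpK, hmin⟩ := hK.exists_isMinOn hne hcont
  have hzero : |g ε p.1 p.2| ≤ 0 := by
    apply le_of_forall_pos_le_add
    intro δ hδ
    obtain ⟨n, hn⟩ := exists_pow_lt_of_lt_one hδ (show (1 / 3 : ℝ) < 1 by norm_num)
    obtain ⟨q, hq, hq2⟩ := approx n
    have h1 : |g ε p.1 p.2| ≤ |g ε q.1 q.2| := hmin hq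
    have h2 : (1 : ℝ) / 3 / 3 ^ n ≤ (1 / 3) ^ n := by
      rw [div_pow, one_pow]
      apply div_le_div_of_nonneg_right (by norm_num) (by positivity)
    linarith
  obtain ⟨⟨hX, hX1, hX2⟩, ⟨hZ, -⟩⟩ := hpK
  exact ⟨p.1, hX, p.2, hZ, hX1, hX2, abs_eq_zero.mp (le_antisymm hzero (abs_nonneg _))⟩

lemma exists_point (n : ℕ) : ∃ p : ℝ × ℝ, p.1 ∈ cantorSet ∧ p.2 ∈ cantorSet ∧
    p.1 ^ 2 + p.2 ^ 2 = 1 ∧ 2 / 3 / 3 ^ (n + 1) ≤ p.1 ∧ p.1 ≤ 7 / 9 / 3 ^ (n + 1) := by
  have h9 : (0 : ℝ) ≤ 1 / 9 ^ (n + 1) := by positivity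
  have h9' : (1 : ℝ) / 9 ^ (n + 1) ≤ 1 / 9 := by
    rw [pow_succ]
    have : (1 : ℝ) ≤ 9 ^ n := one_le_pow₀ (by norm_num)
    apply one_div_le_one_div_of_le (by norm_num)
    linarith
  obtain ⟨X, hX, Z, hZ, hX1, hX2, hg⟩ := exists_zero h9 h9'
  refine ⟨(X / 3 ^ (n + 1), 1 - Z / 3 ^ (2 * (n + 1))), div_pow_mem hX _,
    one_sub_mem (div_pow_mem hZ _), ?_, ?_, ?_⟩
  · have e9 : (9 : ℝ) ^ (n + 1) = (3 ^ (n + 1)) ^ 2 := by
      rw [← pow_mul, mul_comm, pow_mul]; norm_num
    have e32 : (3 : ℝ) ^ (2 * (n + 1)) = (3 ^ (n + 1)) ^ 2 := by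
      rw [← pow_mul, mul_comm]
    have h3 : (3 : ℝ) ^ (n + 1) ≠ 0 := by positivity
    simp only [e32]
    unfold g at hg
    rw [e9] at hg
    generalize (3 : ℝ) ^ (n + 1) = t at *
    field_simp at hg ⊢
    linear_combination -hg
  · exact div_le_div_of_nonneg_right hX1 (by positivity)
  · exact div_le_div_of_nonneg_right hX2 (by positivity)

/-- **The unit circle meets `C × C` in infinitely many points**, where `C` is the middle-third
Cantor set. -/
theorem result :
    {p : ℝ × ℝ | p.1 ∈ cantorSet ∧ p.2 ∈ cantorSet ∧ p.1 ^ 2 + p.2 ^ 2 = 1}.Infinite := by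
  choose p h1 h2 h3 h4 h5 using exists_point
  have hanti : StrictAnti (fun n => (p n).1) := by
    apply strictAnti_nat_of_succ_lt
    intro n
    have a1 := h5 (n + 1)
    have a2 := h4 n
    have : (7 : ℝ) / 9 / 3 ^ (n + 1 + 1) < 2 / 3 / 3 ^ (n + 1) := by
      have h3 : (0 : ℝ) < 3 ^ (n + 1) := by positivity
      rw [pow_succ (3 : ℝ) (n + 1)]
      rw [div_lt_div_iff₀ (by positivity) (by positivity)]
      nlinarith
    linarith
  have hinj : Function.Injective p := by
    intro m n hmn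
    exact hanti.injective (by simp [hmn])
  exact Set.infinite_of_injective_forall_mem hinj (fun n => ⟨h1 n, h2 n, h3 n⟩)

end Pool.Agent.Results.MP_54f706_an.CircleCantorInfinite
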